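import Pool.Agent.H37.CTQ.Stmts

set_option autoImplicit false

namespace Pool.CND

theorem pg1_thm : S_PG1 := by
  intro p n G _ _ ι W z hp hι hW hzW hz1 hzp hcom
  haveI : Fact p.Prime := ⟨hp⟩
  have hx : ∃ x, ι z x ≠ x := by
    by_contra h
    push Not at h
    apply hz1
    apply hι
    rw [map_one]
    apply Equiv.ext
    intro x
    rw [h x]
    rfl
  obtain ⟨x, hx⟩ := hx
  have hmul : ∀ (a b : G) (y : Fin n), ι (a * b) y = ι a (ι b y) := by
    intro a b y
    rw [map_mul]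
    rfl
  have hinv : ∀ (a : G) (y y' : Fin n), ι a y = y' → ι a⁻¹ y' = y := by
    intro a y y' h
    rw [← h, ← hmul, inv_mul_cancel, map_one]
    rfl
  have hcomz : ∀ w ∈ W, ∀ i : ℤ, w * z ^ i = z ^ i * w := by
    intro w hw i
    have h1 : Commute w z := hcom w hw
    exact (h1.zpow_right i)
  let H₀ : Subgroup G :=
    { carrier := {w | w ∈ W ∧ ι w x = x}
      mul_mem' := by
        rintro a b ⟨ha, ha'⟩ ⟨hb, hb'⟩
        refine ⟨W.mul_mem ha hb, ?_⟩
        rw [hmul, hb', ha']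
      one_mem' := by
        refine ⟨W.one_mem, ?_⟩
        rw [map_one]
        rfl
      inv_mem' := by
        rintro a ⟨ha, ha'⟩
        exact ⟨W.inv_mem ha, hinv a x x ha'⟩ }
  have hH₀ : ∀ w, w ∈ H₀ ↔ w ∈ W ∧ ι w x = x := fun w => Iff.rfl
  let H : Subgroup G :=
    { carrier := {w | w ∈ W ∧ ∃ i : ℤ, ι w x = ι (z ^ i) x}
      mul_mem' := by
        rintro a b ⟨ha, i, ha'⟩ ⟨hb, j, hb'⟩
        refine ⟨W.mul_mem ha hb, j + i, ?_⟩
        rw [hmul, hb', ← hmul, hcomz a ha, hmul, ha', ← hmul, ← zpow_add]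
      one_mem' := by
        refine ⟨W.one_mem, 0, ?_⟩
        rw [zpow_zero]
      inv_mem' := by
        rintro a ⟨ha, i, ha'⟩
        refine ⟨W.inv_mem ha, -i, ?_⟩
        have h1 := hinv a x _ ha'
        rw [← hmul, hcomz _ (W.inv_mem ha), hmul] at h1
        have h2 := hinv (z ^ i) _ _ h1
        rw [← zpow_neg] at h2
        exact h2.symm }
  have hH : ∀ w, w ∈ H ↔ w ∈ W ∧ ∃ i : ℤ, ι w x = ι (z ^ i) x := fun w => Iff.rfl
  have hHW : H ≤ W := fun w hw => hw.1
  have hH₀W : H₀ ≤ W := fun w hw => hw.1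
  have hH₀H : H₀ ≤ H := by
    intro w hw
    refine ⟨hw.1, 0, ?_⟩
    rw [zpow_zero, map_one]
    exact hw.2
  have hzH : z ∈ H := ⟨hzW, 1, by rw [zpow_one]⟩
  have hzH₀ : z ∉ H₀ := fun h => hx h.2
  letI : MulAction G (Fin n) := MulAction.compHom (Fin n) ι
  have hsm : ∀ (g : G) (y : Fin n), g • y = ι g y := fun g y => rfl
  -- orbit and stabiliser
  have hos : ∀ L : Subgroup G, H₀ ≤ L → L ≤ W →
      Nat.card L = Nat.card H₀ * (MulAction.orbit L x).ncard := by
    intro L hL hLW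
    have h1 : MulAction.stabilizer L x = H₀.subgroupOf L := by
      ext w
      rw [MulAction.mem_stabilizer_iff, Subgroup.mem_subgroupOf, hH₀]
      constructor
      · intro h
        exact ⟨hLW w.2, h⟩
      · intro h
        exact h.2
    have h2 := MulAction.index_stabilizer L x
    have h3 := Subgroup.card_mul_index (MulAction.stabilizer L x)
    rw [h2] at h3
    rw [← h3, h1, Nat.card_congr (Subgroup.subgroupOfEquivOfLe hL).toEquiv]
  have hz' : orderOf z = p := orderOf_eq_prime hzp hz1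
  have horb : (MulAction.orbit H x).ncard = p := by
    have h1 : MulAction.orbit H x = MulAction.orbit (Subgroup.zpowers z) x := by
      ext y
      constructor
      · rintro ⟨w, rfl⟩
        obtain ⟨hw1, i, hi⟩ := w.2
        exact ⟨⟨z ^ i, Subgroup.zpow_mem_zpowers z i⟩, hi.symm⟩
      · rintro ⟨w, rfl⟩
        obtain ⟨i, hi⟩ := Subgroup.mem_zpowers_iff.mp w.2
        refine ⟨⟨z ^ i, H.zpow_mem hzH i⟩, ?_⟩
        show ι (z ^ i) x = ι (w : G) x
        rw [hi]
    have hcard : Nat.card (Subgroup.zpowers z) = p := by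
      rw [Nat.card_zpowers, hz']
    haveI : Fact (Nat.card (Subgroup.zpowers z)).Prime := ⟨by rw [hcard]; exact hp⟩
    have h2 : MulAction.stabilizer (Subgroup.zpowers z) x = ⊥ := by
      rcases Subgroup.eq_bot_or_eq_top_of_prime_card
        (MulAction.stabilizer (Subgroup.zpowers z) x) with h | h
      · exact h
      · exfalso
        have h3 : (⟨z, Subgroup.mem_zpowers z⟩ : Subgroup.zpowers z) ∈
            MulAction.stabilizer (Subgroup.zpowers z) x := by
          rw [h]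
          exact Subgroup.mem_top _
        exact hx h3
    rw [h1, ← MulAction.index_stabilizer, h2, Subgroup.index_bot, hcard]
  have hcardH : Nat.card H = p * Nat.card H₀ := by
    rw [hos H hH₀H hHW, horb, mul_comm]
  have hcomm : ∀ a ∈ H, ∀ h ∈ H, h * a * h⁻¹ * a⁻¹ ∈ H₀ := by
    rintro a ⟨ha, j, ha'⟩ h ⟨hh, i, hh'⟩
    refine ⟨W.mul_mem (W.mul_mem (W.mul_mem hh ha) (W.inv_mem hh)) (W.inv_mem ha), ?_⟩
    have h1 : ι (a⁻¹) x = ι (z ^ (-j)) x := by
      have h1 := hinv a x _ ha'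
      rw [← hmul, hcomz _ (W.inv_mem ha), hmul] at h1
      have h2 := hinv (z ^ j) _ _ h1
      rw [← zpow_neg] at h2
      exact h2.symm
    have h2 : ι (h⁻¹) x = ι (z ^ (-i)) x := by
      have h1 := hinv h x _ hh'
      rw [← hmul, hcomz _ (W.inv_mem hh), hmul] at h1
      have h2 := hinv (z ^ i) _ _ h1
      rw [← zpow_neg] at h2
      exact h2.symm
    rw [hmul, h1, ← hmul, mul_assoc, hcomz _ (W.inv_mem hh), ← mul_assoc, hmul, h2, ← hmul,
      mul_assoc, ← zpow_add, mul_assoc, hcomz _ ha, ← mul_assoc, hmul, ha', ← hmul, mul_assoc,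
      ← zpow_add, hcomz _ hh, hmul, hh', ← hmul, ← zpow_add]
    have h3 : -j + -i + j + i = 0 := by ring
    rw [h3, zpow_zero, map_one]
    rfl
  obtain ⟨m, hm⟩ := hW
  have hW1 := hos W hH₀W le_rfl
  have hdvd : (MulAction.orbit W x).ncard ∣ p ^ m := by
    rw [← hm, hW1]
    exact Dvd.intro_left _ rfl
  obtain ⟨k, hk, hk'⟩ := (Nat.dvd_prime_pow hp).mp hdvd
  have hgt : 1 < (MulAction.orbit W x).ncard := by
    rw [Set.one_lt_ncard]
    refine ⟨x, MulAction.mem_orbit_self x, ι z x, ⟨⟨z, hzW⟩, rfl⟩, fun h => hx h.symm⟩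
  have hle : (MulAction.orbit W x).ncard ≤ n := by
    have h1 := Set.ncard_le_ncard (Set.subset_univ (MulAction.orbit W x)) Set.finite_univ
    rw [Set.ncard_univ, Nat.card_fin] at h1
    exact h1
  have hk0 : k ≠ 0 := by
    rintro rfl
    rw [hk', pow_zero] at hgt
    exact lt_irrefl _ hgt
  obtain ⟨d, rfl⟩ := Nat.exists_eq_succ_of_ne_zero hk0
  refine ⟨H, H₀, d, hHW, hzH, ?_, ?_, hH₀H, hzH₀, hcardH, ?_, hcomm⟩
  · rw [hW1, hk', hcardH, Nat.succ_eq_add_one, pow_succ]
    ring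
  · rw [← Nat.succ_eq_add_one, ← hk']
    exact hle
  · intro h hh a ha
    have h1 := H₀.mul_mem (hcomm a (hH₀H ha) h hh) ha
    rwa [inv_mul_cancel_right] at h1

end Pool.CND
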